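import Pool.Agent.Q274.HD.Stm2
import Pool.Agent.Y723.PT.Lg

/-!
# Project HD, job HD-NPL: the odd primes without local points of order four
-/

set_option autoImplicit false

namespace Pool.Agent.Q176.HD

lemma comb : ∀ a b c v : Fin 2 → ZMod 2,
    (a ≠ 0 ∧ b ≠ 0 ∧ c ≠ 0 ∧ a ≠ b ∧ a ≠ c ∧ b ≠ c ∧ v ≠ 0) →
    (a 0 * v 0 + a 1 * v 1 = 0 ∨ b 0 * v 0 + b 1 * v 1 = 0 ∨ c 0 * v 0 + c 1 * v 1 = 0) := by
  decide

lemma two_coe : ((2 : ℤ_[2]) : ℚ_[2]) = 2 := rfl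

open NumberField
open Pool.Agent.Q274.HD
open Pool.Agent.Q274.BKC (GK OB Dec Ine)
open Pool.Agent.TH344.JG (LocJ)
open scoped Classical Matrix

lemma toV_inj {s t : T2} (h : toV s = toV t) : s = t := by
  funext i
  exact Subtype.ext (congrFun h i)

lemma toV_act (ρ : Rep) (σ : GQ) (t : T2) : act ρ σ (toV t) = toV (ρ σ *ᵥ t) := by
  funext i
  simp only [act, toV, Matrix.mulVec, dotProduct]
  push_cast
  rfl

lemma toV_add (s t : T2) : toV (s + t) = toV s + toV t := by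
  funext i
  simp [toV]

lemma toV_smul (a : ℤ_[2]) (t : T2) : toV (a • t) = (a : ℚ_[2]) • toV t := by
  funext i
  simp [toV]

/-- the vectors are multiples of the primitive vectors of the lattice -/
lemma scale (v : V2) (hv : v ≠ 0) : ∃ (n : ℤ) (t : T2), toV t = ((2 : ℚ_[2]) ^ n) • v ∧
    ∃ k, ¬ (2 : ℤ_[2]) ∣ t k := by
  obtain ⟨k, hk⟩ := Finite.exists_max fun i => ‖v i‖
  have hk0 : v k ≠ 0 := by
    intro h0
    apply hv
    funext i
    have := hk i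
    rw [h0, norm_zero] at this
    exact norm_le_zero_iff.1 this
  have h2 : (2 : ℚ_[2]) ≠ 0 := two_ne_zero
  have hn : ‖(2 : ℚ_[2]) ^ (-(v k).valuation)‖ * ‖v k‖ = 1 := by
    rw [Padic.norm_eq_zpow_neg_valuation hk0, norm_zpow]
    have e : ‖(2 : ℚ_[2])‖ = ((2 : ℕ) : ℝ)⁻¹ := by
      have := Padic.norm_p (p := 2)
      exact_mod_cast this
    rw [e, inv_zpow', neg_neg, ← zpow_add₀ (by norm_num)]
    simp
  have hle : ∀ i, ‖(2 : ℚ_[2]) ^ (-(v k).valuation) * v i‖ ≤ 1 := by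
    intro i
    rw [norm_mul, ← hn]
    exact mul_le_mul_of_nonneg_left (hk i) (norm_nonneg _)
  refine ⟨-(v k).valuation, fun i => ⟨(2 : ℚ_[2]) ^ (-(v k).valuation) * v i, hle i⟩, ?_, k, ?_⟩
  · funext i
    rfl
  · intro hd
    have h1 := (PadicInt.norm_lt_one_iff_dvd
      (⟨(2 : ℚ_[2]) ^ (-(v k).valuation) * v k, hle k⟩ : ℤ_[2])).2 (by exact_mod_cast hd)
    have h3 : ‖(2 : ℚ_[2]) ^ (-(v k).valuation) * v k‖ < 1 := h1
    rw [norm_mul, hn] at h3
    exact lt_irrefl _ h3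

lemma toZMod_zero {a : ℤ_[2]} : PadicInt.toZMod (p := 2) a = 0 ↔ (2 : ℤ_[2]) ∣ a := by
  rw [← RingHom.mem_ker, PadicInt.ker_toZMod, PadicInt.maximalIdeal_eq_span_p,
    Ideal.mem_span_singleton]
  norm_cast

lemma pr_zero (l : Fin 2 → ZMod 2) {t : T2} (h : ∀ k, (2 : ℤ_[2]) ∣ t k) : pr l t = 0 := by
  refine Finset.sum_eq_zero fun k _ => ?_
  rw [toZMod_zero.2 (h k), mul_zero]

/-- a primitive vector is killed by one of the forms -/
lemma exi {L : Fin 3 → Fin 2 → ZMod 2} (h0 : ∀ j, L j ≠ 0) (hi : Function.Injective L) {t : T2}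
    (ht : ∃ k, ¬ (2 : ℤ_[2]) ∣ t k) : ∃ i, pr (L i) t = 0 := by
  have hv : (fun k => PadicInt.toZMod (p := 2) (t k)) ≠ 0 := by
    obtain ⟨k, hk⟩ := ht
    intro h
    exact hk (toZMod_zero.1 (congrFun h k))
  have hp : ∀ i, pr (L i) t = L i 0 * PadicInt.toZMod (p := 2) (t 0) +
      L i 1 * PadicInt.toZMod (p := 2) (t 1) := fun i => Fin.sum_univ_two _
  rcases comb (L 0) (L 1) (L 2) _ ⟨h0 0, h0 1, h0 2, fun h => absurd (hi h) (by decide),
    fun h => absurd (hi h) (by decide), fun h => absurd (hi h) (by decide), hv⟩ with h | h | h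
  · exact ⟨0, by rw [hp]; exact h⟩
  · exact ⟨1, by rw [hp]; exact h⟩
  · exact ⟨2, by rw [hp]; exact h⟩

/-- the decomposition group does not act trivially modulo four on a primitive vector -/
lemma nofix {b : Fin 3 → ℤ} {ρ : Rep} {L : Fin 3 → Fin 2 → ZMod 2} (hD : Dat b ρ L) (hE : S_EMB4)
    (l : ℕ) [hl : Fact l.Prime] (hN : NoFour b l) {Q : Ideal ZB} (hQ : Q.IsMaximal)
    (hlQ : (l : ZB) ∈ Q) {t : T2} (ht : ∃ k, ¬ (2 : ℤ_[2]) ∣ t k)
    (h : ∀ σ ∈ Dec Q, ∃ u : T2, ρ σ *ᵥ t = t + (2 : ℤ_[2]) • u ∧ ∀ j, pr (L j) u = 0) : False := by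
  obtain ⟨i, hi⟩ := exi hD.ne hD.inj ht
  have key : ∀ j, i ≠ j → IsSquare ((b i - b j : ℤ) : ℚ_[l]) := by
    intro j hij
    refine (hE l Q hQ hlQ).2 (b i - b j) fun y hy σ hσ => ?_
    obtain ⟨u, hu, hu0⟩ := h σ hσ
    exact (hD.kum i j hij t u σ ht hi hu y hy).2 (hu0 j)
  have ex : ∀ i : Fin 3, ∃ j k : Fin 3, i ≠ j ∧ i ≠ k ∧ j ≠ k := by decide
  obtain ⟨j, k, hij, hik, hjk⟩ := ex i
  exact hN i j k hij hik hjk ⟨key j hij, key k hik⟩

/-- there is a maximal ideal above `l` -/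
lemma exQ (l : ℕ) (hl : l.Prime) : ∃ Q : Ideal ZB, Q.IsMaximal ∧ (l : ZB) ∈ Q := by
  have hne : Ideal.span {(l : ZB)} ≠ ⊤ := by
    intro htop
    rw [Ideal.span_singleton_eq_top] at htop
    obtain ⟨z, hz⟩ := htop.exists_right_inv
    have h1 : (l : QB) * (z : QB) = 1 := by
      have := congrArg (fun w : ZB => (w : QB)) hz
      simpa using this
    have hl0 : (l : ℚ) ≠ 0 := by exact_mod_cast hl.ne_zero
    have h2 : (z : QB) = algebraMap ℚ QB ((l : ℚ)⁻¹) := by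
      rw [map_inv₀, map_natCast]
      exact (eq_inv_of_mul_eq_one_right h1)
    have h3 : IsIntegral ℤ (algebraMap ℚ QB ((l : ℚ)⁻¹)) := by
      rw [← h2]
      exact z.2
    rw [isIntegral_algebraMap_iff (algebraMap ℚ QB).injective] at h3
    obtain ⟨m, hm⟩ := IsIntegrallyClosed.isIntegral_iff.1 h3
    have h4 : (m : ℚ) * l = 1 := by
      have h5 : (m : ℚ) = (l : ℚ)⁻¹ := by simpa using hm
      rw [h5, inv_mul_cancel₀ hl0]
    have h5 : m * (l : ℤ) = 1 := by exact_mod_cast h4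
    have h6 : (l : ℤ) ∣ 1 := ⟨m, by rw [mul_comm, h5]⟩
    have h7 : l ∣ 1 := by exact_mod_cast h6
    exact hl.one_lt.ne' (Nat.dvd_one.1 h7)
  obtain ⟨Q, hQ, hle⟩ := Ideal.exists_le_maximal _ hne
  exact ⟨Q, hQ, hle (Ideal.mem_span_singleton_self _)⟩

lemma two_not_mem (l : ℕ) (hl : l.Prime) (h2 : l ≠ 2) {Q : Ideal ZB} (hQ : Q.IsMaximal)
    (hlQ : (l : ZB) ∈ Q) : (2 : ZB) ∉ Q := by
  intro h
  apply hQ.ne_top
  rw [Ideal.eq_top_iff_one]
  have hodd : l % 2 = 1 := by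
    rcases hl.eq_two_or_odd with h' | h'
    · exact absurd h' h2
    · exact h'
  have e : (1 : ZB) = (l : ZB) - ((l / 2 : ℕ) : ZB) * 2 := by
    have : l = 2 * (l / 2) + 1 := by omega
    have h' : (l : ZB) = ((2 * (l / 2) + 1 : ℕ) : ZB) := congrArg _ this
    push_cast at h'
    rw [h']
    ring
  rw [e]
  exact Q.sub_mem hlQ (Q.mul_mem_left _ h)

lemma two_cancel {s t : T2} (h : (2 : ℤ_[2]) • s = (2 : ℤ_[2]) • t) : s = t := by
  funext i
  have := congrFun h i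
  simp only [Pi.smul_apply, smul_eq_mul] at this
  exact mul_left_cancel₀ two_ne_zero this

/-- **HD-11 (NPL)** -/
theorem t_NPL : S_NPL := by
  intro hE hF hB hT b ρ w f L c x hL l hl h2 hN
  have hlp : l.Prime := hl.out
  obtain ⟨Q, hQ, hlQ⟩ := exQ l hlp
  have h2Q : (2 : ZB) ∉ Q := two_not_mem l hlp h2 hQ hlQ
  have h20 : (2 : ℚ_[2]) ≠ 0 := two_ne_zero
  -- (1)
  have hinv : ∀ v : V2, (∀ σ ∈ Dec Q, act ρ σ v = v) → v = 0 := by
    intro v hv
    by_contra hv0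
    obtain ⟨n, t, ht, htk⟩ := scale v hv0
    refine nofix hL.dat hE l hN hQ hlQ htk fun σ hσ => ⟨0, ?_, fun j => ?_⟩
    · apply toV_inj
      rw [smul_zero, add_zero, ← toV_act, ht, act_smul, hv σ hσ]
    · exact pr_zero _ fun k => dvd_zero _
  -- (2)
  obtain ⟨y, hy⟩ := hB hF ρ hL.def_.cont l hlp Q hQ hlQ hinv (fun σ => toV (c σ)) hL.sel.cont
    hL.sel.coc (hL.sel.ine Q hQ h2Q)
  have hy' : ∀ σ ∈ Dec Q, act ρ σ y = y + toV (c σ) := by
    intro σ hσ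
    rw [hy σ hσ]
    abel
  obtain ⟨t, ht⟩ : ∃ t : T2, toV t = (2 : ℚ_[2]) • y := by
    by_cases hy0 : y = 0
    · refine ⟨0, ?_⟩
      rw [hy0, smul_zero]
      funext i
      simp [toV]
    obtain ⟨n, t0, ht0, htk⟩ := scale y hy0
    by_cases hn : n ≤ 1
    · obtain ⟨m, hm⟩ := Int.eq_ofNat_of_zero_le (sub_nonneg.2 hn)
      refine ⟨(2 : ℤ_[2]) ^ m • t0, ?_⟩
      rw [toV_smul, ht0, smul_smul]
      congr 1
      rw [PadicInt.coe_pow, two_coe, ← zpow_natCast, ← hm, ← zpow_add₀ h20]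
      simp
    · exfalso
      obtain ⟨m, hm⟩ := Int.eq_ofNat_of_zero_le (show 0 ≤ n - 2 by omega)
      refine nofix hL.dat hE l hN hQ hlQ htk fun σ hσ => ⟨(2 : ℤ_[2]) ^ (m + 1) • c σ, ?_,
        fun j => ?_⟩
      · apply toV_inj
        rw [← toV_act, ht0, act_smul, hy' σ hσ, toV_add, toV_smul, toV_smul, smul_add, ht0,
          smul_smul]
        congr 2
        have : n = ((m + 2 : ℕ) : ℤ) := by push_cast; omega
        rw [this, zpow_natCast, PadicInt.coe_pow, two_coe]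
        ring
      · refine pr_zero _ fun k => ?_
        rw [Pi.smul_apply, smul_eq_mul, pow_succ', mul_assoc]
        exact Dvd.intro _ rfl
  -- (3)
  choose u hu using fun σ => hL.dat.two σ t
  have huc : ∀ σ ∈ Dec Q, u σ = c σ := by
    intro σ hσ
    apply two_cancel
    have e : t + (2 : ℤ_[2]) • u σ = t + (2 : ℤ_[2]) • c σ := by
      rw [← hu σ]
      apply toV_inj
      rw [← toV_act, ht, act_smul, hy' σ hσ, toV_add, toV_smul, smul_add, ht]
      rfl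
    exact add_left_cancel e
  obtain ⟨x', ⟨hx0', hx'⟩, hloc⟩ := hT b ρ L hL.inj hL.dat t u hu
  obtain ⟨hx0, hx⟩ := hL.cls
  have hl' := hloc ℚ_[l] (Q182.JQ.ELL.H3_padic l)
  rw [Pool.Agent.Y723.PT.locJ_iff] at hl' ⊢
  refine Pool.Agent.Y723.PT.LG.congr (fun i => ?_) hl' fun j => ?_
  · exact_mod_cast hx0' i
  · have key := (hE l Q hQ hlQ).2 (x' j * x j) fun z hz σ hσ => by
      obtain ⟨r, hr⟩ := IsAlgClosed.exists_pow_nat_eq (((x' j : ℤ) : QB)) (n := 2) (by norm_num)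
      obtain ⟨s, hs⟩ := IsAlgClosed.exists_pow_nat_eq (((x j : ℤ) : QB)) (n := 2) (by norm_num)
      have hz2 : z ^ 2 = (r * s) ^ 2 := by
        rw [hz, mul_pow, hr, hs]
        push_cast
        rfl
      have h1 := hx' j σ (Set.mem_univ _) r hr
      have h3 := hx j σ (Set.mem_univ _) s hs
      rw [huc σ hσ, ← h3] at h1
      have hσr : σ r = r ∨ σ r = -r := by
        apply sq_eq_sq_iff_eq_or_eq_neg.1
        rw [← map_pow, hr]
        simp
      have hσs : σ s = s ∨ σ s = -s := by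
        apply sq_eq_sq_iff_eq_or_eq_neg.1
        rw [← map_pow, hs]
        simp
      have hrs : σ (r * s) = r * s := by
        rw [map_mul]
        by_cases hr1 : σ r = r
        · rw [hr1, h1.1 hr1]
        · have hs1 : ¬ σ s = s := fun h => hr1 (h1.2 h)
          rw [hσr.resolve_left hr1, hσs.resolve_left hs1]
          ring
      rcases sq_eq_sq_iff_eq_or_eq_neg.1 hz2 with h | h
      · rw [h, hrs]
      · rw [h, map_neg, hrs]
    simpa using key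

end Pool.Agent.Q176.HD
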